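import Mathlib

/-! A connected graph whose middle graph has no larger outer-connected domination number. -/

namespace Pool.Agent.Results.MP_43f51c_co.Equality

open SimpleGraph

/-- `S` is an outer-connected dominating set. -/
def IsOCD {V : Type} (G : SimpleGraph V) (S : Set V) : Prop :=
  (∀ v, v ∈ S ∨ ∃ w ∈ S, G.Adj v w) ∧ (G.induce Sᶜ).Connected

/-- The outer-connected domination number. -/
noncomputable def ocd {V : Type} (G : SimpleGraph V) : ℕ :=
  sInf {k | ∃ S : Set V, S.ncard = k ∧ IsOCD G S}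

/-- Adjacency in the middle graph. -/
def midAdj {V : Type} (G : SimpleGraph V) : V ⊕ G.edgeSet → V ⊕ G.edgeSet → Prop
  | .inl _, .inl _ => False
  | .inl v, .inr e => v ∈ e.1
  | .inr e, .inl v => v ∈ e.1
  | .inr e, .inr f => e ≠ f ∧ ∃ v, v ∈ e.1 ∧ v ∈ f.1

/-- The middle graph. -/
def middle {V : Type} (G : SimpleGraph V) : SimpleGraph (V ⊕ G.edgeSet) where
  Adj := midAdj G
  symm := ⟨by
    rintro (a | a) (b | b) h
    · exact h
    · exact h
    · exact h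
    · exact ⟨h.1.symm, h.2.imp fun _ hv => hv.symm⟩⟩
  loopless := ⟨by
    rintro (a | a) h
    · exact h
    · exact h.1 rfl⟩

def E : List (Fin 8 × Fin 8) :=
  [(0, 4), (1, 5), (0, 6), (2, 6), (3, 6), (4, 6), (1, 7), (2, 7), (3, 7), (5, 7), (6, 7)]

def G0 : SimpleGraph (Fin 8) where
  Adj a b := (a, b) ∈ E ∨ (b, a) ∈ E
  symm := ⟨fun _ _ h => h.symm⟩
  loopless := ⟨by decide⟩

instance : DecidableRel G0.Adj := fun a b => by unfold G0; infer_instance

lemma lower (S : Set (Fin 8)) (h : IsOCD G0 S) : 4 ≤ S.ncard := by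
  classical
  obtain ⟨T, rfl⟩ := (Set.toFinite S).exists_finset_coe
  rw [Set.ncard_coe_finset]
  by_contra hc
  have key : ∀ T : Finset (Fin 8), ¬ 4 ≤ T.card → (∀ v, v ∈ T ∨ ∃ w ∈ T, G0.Adj v w) →
      ∃ A : Finset (Fin 8), (∃ a ∈ A, a ∉ T) ∧ (∃ b, b ∉ A ∧ b ∉ T) ∧
        ∀ a ∈ A, ∀ b, b ∉ T → G0.Adj a b → b ∈ A := by decide +kernel
  obtain ⟨A, ⟨a, ha, ha'⟩, ⟨b, hb, hb'⟩, hA⟩ := key T hc h.1
  obtain ⟨w⟩ := h.2.preconnected ⟨a, ha'⟩ ⟨b, hb'⟩
  have : ∀ {x y : ↥((T : Set (Fin 8))ᶜ)} (_ : (G0.induce (T : Set (Fin 8))ᶜ).Walk x y),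
      x.1 ∈ A → y.1 ∈ A := by
    intro x y w
    induction w with
    | nil => exact id
    | @cons u v _ h _ ih => exact fun hx => ih (hA _ hx _ v.2 h)
  exact hb (this w ha)

def M4 : Finset (Sym2 (Fin 8)) := {s(0, 4), s(1, 5), s(2, 6), s(3, 7)}

def S0 : Set (Fin 8 ⊕ G0.edgeSet) := Sum.inr '' {e | e.1 ∈ M4}

lemma nl (v : Fin 8) : Sum.inl v ∈ S0ᶜ := by simp [S0]

lemma step (a b : Fin 8) (h : G0.Adj a b) (h' : s(a, b) ∉ M4) :
    ((middle G0).induce S0ᶜ).Reachable ⟨.inl a, nl a⟩ ⟨.inl b, nl b⟩ := by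
  have m : Sum.inr ⟨s(a, b), h⟩ ∈ S0ᶜ := by simpa [S0] using h'
  have h1 : ((middle G0).induce S0ᶜ).Adj ⟨.inl a, nl a⟩ ⟨_, m⟩ := Sym2.mem_mk_left a b
  have h2 : ((middle G0).induce S0ᶜ).Adj ⟨_, m⟩ ⟨.inl b, nl b⟩ := Sym2.mem_mk_right a b
  exact h1.reachable.trans h2.reachable

lemma upper : IsOCD (middle G0) S0 := by
  have cov : ∀ v : Fin 8, ∃ e ∈ M4, e ∈ G0.edgeSet ∧ v ∈ e := by decide
  constructor
  · rintro (v | ⟨e, he⟩)
    · obtain ⟨f, h1, h2, h3⟩ := cov v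
      exact Or.inr ⟨.inr ⟨f, h2⟩, ⟨_, h1, rfl⟩, h3⟩
    · by_cases h : e ∈ M4
      · exact Or.inl ⟨_, h, rfl⟩
      · obtain ⟨f, h1, h2, h3⟩ := cov e.out.1
        exact Or.inr ⟨.inr ⟨f, h2⟩, ⟨_, h1, rfl⟩, fun h4 => h (by
          rw [show e = f from congrArg Subtype.val h4]; exact h1), _, e.out_fst_mem, h3⟩
  · have r6 := step 6 7 (by decide) (by decide)
    have r : ∀ v, ((middle G0).induce S0ᶜ).Reachable ⟨.inl v, nl v⟩ ⟨.inl 7, nl 7⟩ := by
      intro v
      fin_cases v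
      · exact (step 0 6 (by decide) (by decide)).trans r6
      · exact step 1 7 (by decide) (by decide)
      · exact step 2 7 (by decide) (by decide)
      · exact (step 3 6 (by decide) (by decide)).trans r6
      · exact (step 4 6 (by decide) (by decide)).trans r6
      · exact step 5 7 (by decide) (by decide)
      · exact r6
      · rfl
    rw [connected_iff_exists_forall_reachable]
    refine ⟨⟨.inl 7, nl 7⟩, ?_⟩
    rintro ⟨v | e, hv⟩
    · exact (r v).symm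
    · exact (r e.1.out.1).symm.trans (Adj.reachable e.1.out_fst_mem)

theorem result : ∃ G : SimpleGraph (Fin 8), G.Connected ∧ ocd (middle G) ≤ ocd G := by
  refine ⟨G0, by decide, le_trans (Nat.sInf_le ⟨S0, rfl, upper⟩) (le_trans (b := 4) ?_ ?_)⟩
  · rw [S0, Set.ncard_image_of_injective _ Sum.inr_injective,
      show 4 = (M4 : Set (Sym2 (Fin 8))).ncard by rw [Set.ncard_coe_finset]; decide]
    exact Set.ncard_le_ncard_of_injOn Subtype.val (fun _ h => h) Subtype.val_injective.injOn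
  · refine le_csInf ⟨_, {0}ᶜ, rfl, by decide, ?_⟩ (by rintro _ ⟨S, rfl, h⟩; exact lower S h)
    rw [compl_compl]
    exact Connected.of_subsingleton

end Pool.Agent.Results.MP_43f51c_co.Equality
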